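import Mathlib

/-! The discriminant of a quadratic field. -/

set_option autoImplicit false

namespace Pool.Agent.TH847.LS

open NumberField Finset Matrix
open scoped Classical

variable {K : Type} [Field K] [NumberField K]

/-- the norm of a rational integer -/
theorem norm_int (h2 : Module.finrank ℚ K = 2) (m : ℤ) :
    Algebra.norm ℤ ((m : ℤ) : 𝓞 K) = m ^ 2 := by
  have := Algebra.norm_algebraMap_of_basis (RingOfIntegers.basis K) m
  rw [← Module.finrank_eq_card_basis (RingOfIntegers.basis K), RingOfIntegers.rank, h2] at this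
  rw [← this]
  rfl

/-- an algebraic integer whose double is a rational integer is a rational integer -/
theorem int_of_two_mul (h2 : Module.finrank ℚ K = 2) {α : 𝓞 K} {u : ℤ}
    (h : 2 * α = (u : 𝓞 K)) : ∃ m : ℤ, α = (m : 𝓞 K) := by
  have h3 : Algebra.norm ℤ (2 * α) = 4 * Algebra.norm ℤ α := by
    rw [map_mul]
    have := norm_int h2 2
    rw [Int.cast_ofNat] at this
    rw [this]
    norm_num
  rw [h, norm_int h2] at h3
  have h4 : Even u := by
    have : Even (u ^ 2) := by rw [h3]; exact ⟨2 * Algebra.norm ℤ α, by ring⟩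
    exact (Int.even_pow.mp this).1
  obtain ⟨m, hm⟩ := h4
  refine ⟨m, ?_⟩
  have h5 : (2 : 𝓞 K) * α = 2 * (m : 𝓞 K) := by
    rw [h, hm]; push_cast; ring
  exact mul_left_cancel₀ two_ne_zero h5

theorem ch2 (M : Matrix (Fin 2) (Fin 2) ℤ) (t n : ℤ) (ht : M.trace = t) (hn : M.det = n) :
    M * M = t • M - n • 1 := by
  rw [Matrix.trace_fin_two] at ht
  rw [Matrix.det_fin_two] at hn
  ext i j
  fin_cases i <;> fin_cases j
  · simp [Matrix.mul_apply, Fin.sum_univ_two, Matrix.smul_apply, -zsmul_eq_mul, -zsmul_one]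
    linear_combination (M 0 0) * ht - hn
  · simp [Matrix.mul_apply, Fin.sum_univ_two, Matrix.smul_apply, -zsmul_eq_mul, -zsmul_one]
    linear_combination (M 0 1) * ht
  · simp [Matrix.mul_apply, Fin.sum_univ_two, Matrix.smul_apply, -zsmul_eq_mul, -zsmul_one]
    linear_combination (M 1 0) * ht
  · simp [Matrix.mul_apply, Fin.sum_univ_two, Matrix.smul_apply, -zsmul_eq_mul, -zsmul_one]
    linear_combination (M 1 1) * ht - hn

/-- the quadratic equation of an algebraic integer and the discriminant -/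
theorem quad_eq (h2 : Module.finrank ℚ K = 2) (α : 𝓞 K) (hα : ∀ m : ℤ, α ≠ (m : 𝓞 K)) :
    ∃ t m : ℤ, m ≠ 0 ∧ (2 * α - (t : 𝓞 K)) ^ 2 = ((t ^ 2 - 4 * Algebra.norm ℤ α : ℤ) : 𝓞 K) ∧
      t ^ 2 - 4 * Algebra.norm ℤ α = m ^ 2 * discr K := by
  have hc : Fintype.card (Module.Free.ChooseBasisIndex ℤ (𝓞 K)) = 2 := by
    rw [← Module.finrank_eq_card_basis (RingOfIntegers.basis K), RingOfIntegers.rank, h2]
  let e : Module.Free.ChooseBasisIndex ℤ (𝓞 K) ≃ Fin 2 := Fintype.equivFinOfCardEq hc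
  let b : Module.Basis (Fin 2) ℤ (𝓞 K) := (RingOfIntegers.basis K).reindex e
  set M := Algebra.leftMulMatrix b α with hM
  set t := Algebra.trace ℤ (𝓞 K) α with ht
  set n := Algebra.norm ℤ α with hn
  have htM : M.trace = t := (Algebra.trace_eq_matrix_trace b α).symm
  have hnM : M.det = n := (Algebra.norm_eq_matrix_det b α).symm
  have hCH : M * M = t • M - n • 1 := ch2 M t n htM hnM
  have hsq : α * α = t • α - n • 1 := by
    apply Algebra.leftMulMatrix_injective b
    rw [map_mul, map_sub, map_zsmul, map_zsmul, map_one]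
    exact hCH
  have hsq' : α * α = (t : 𝓞 K) * α - (n : 𝓞 K) := by
    rw [hsq, zsmul_eq_mul, zsmul_eq_mul, mul_one]
  have htr1 : Algebra.trace ℤ (𝓞 K) 1 = 2 := by
    have := Algebra.trace_algebraMap_of_basis b (1 : ℤ)
    rw [map_one] at this
    rw [this]
    simp
  have htr2 : Algebra.trace ℤ (𝓞 K) (α * α) = t ^ 2 - 2 * n := by
    rw [hsq, map_sub, map_zsmul, map_zsmul, htr1, ← ht, smul_eq_mul, smul_eq_mul]
    ring
  have hd1 : Algebra.discr ℤ (![1, α] : Fin 2 → 𝓞 K) = t ^ 2 - 4 * n := by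
    rw [Algebra.discr_def, Matrix.det_fin_two]
    simp only [Algebra.traceMatrix_apply, Algebra.traceForm_apply, Matrix.cons_val_zero,
      Matrix.cons_val_one, mul_one, one_mul]
    rw [htr1, htr2, ← ht]
    ring
  have hd2 : Algebra.discr ℤ (![1, α] : Fin 2 → 𝓞 K) =
      (b.toMatrix (![1, α] : Fin 2 → 𝓞 K)).det ^ 2 * discr K := by
    have h3 := Algebra.discr_of_matrix_vecMul (A := ℤ) (b : Fin 2 → 𝓞 K)
      (b.toMatrix (![1, α] : Fin 2 → 𝓞 K))
    rw [Module.Basis.toMatrix_map_vecMul] at h3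
    rw [h3, ← NumberField.discr_eq_discr K b]
  have hsq2 : (2 * α - (t : 𝓞 K)) ^ 2 = ((t ^ 2 - 4 * n : ℤ) : 𝓞 K) := by
    push_cast
    linear_combination 4 * hsq'
  refine ⟨t, (b.toMatrix (![1, α] : Fin 2 → 𝓞 K)).det, ?_, hsq2, ?_⟩
  · intro h0
    rw [h0, hd1] at hd2
    rw [hd2] at hsq2
    have h5 : 2 * α - (t : 𝓞 K) = 0 := by
      have : (2 * α - (t : 𝓞 K)) ^ 2 = 0 := by rw [hsq2]; simp
      exact pow_eq_zero_iff (two_ne_zero) |>.mp this
    obtain ⟨m, hm⟩ := int_of_two_mul h2 (sub_eq_zero.mp h5)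
    exact hα m hm
  · rw [← hd1, hd2]

/-- small norm in an imaginary quadratic field -/
theorem int_of_small (h2 : Module.finrank ℚ K = 2) (hd : discr K < 0) {α : 𝓞 K}
    (h : 4 * |Algebra.norm ℤ α| < |discr K|) : ∃ m : ℤ, α = (m : 𝓞 K) := by
  by_contra hcon
  push Not at hcon
  obtain ⟨t, m, hm, _, h4⟩ := quad_eq h2 α hcon
  have h5 : 1 ≤ m ^ 2 := by
    have := Int.one_le_abs hm
    nlinarith [abs_nonneg m, sq_abs m]
  rw [abs_of_neg hd] at h
  have h6 := le_abs_self (Algebra.norm ℤ α)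
  nlinarith [sq_nonneg t]

/-- a quadratic field is generated by the root of an integer -/
theorem exists_sqrt (h2 : Module.finrank ℚ K = 2) : ∃ (x : K) (t m : ℤ), m ≠ 0 ∧
    x ^ 2 = ((m ^ 2 * discr K : ℤ) : K) ∧ t = m ^ 2 * discr K ∧ ¬ IsSquare t := by
  have hα : ∃ α : 𝓞 K, ∀ m : ℤ, α ≠ (m : 𝓞 K) := by
    by_contra hcon
    push Not at hcon
    have hs : Function.Surjective (algebraMap ℤ (𝓞 K)) := fun α => by
      obtain ⟨m, hm⟩ := hcon α
      exact ⟨m, hm.symm⟩
    have h3 : Module.finrank ℤ (𝓞 K) ≤ 1 := by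
      refine finrank_le_one (1 : 𝓞 K) fun w => ?_
      obtain ⟨m, hm⟩ := hcon w
      exact ⟨m, by rw [hm, zsmul_eq_mul, mul_one]⟩
    rw [RingOfIntegers.rank, h2] at h3
    omega
  obtain ⟨α, hα⟩ := hα
  obtain ⟨t, m, hm, h3, h4⟩ := quad_eq h2 α hα
  refine ⟨((2 * α - (t : 𝓞 K) : 𝓞 K) : K), m ^ 2 * discr K, m, hm, ?_, rfl, ?_⟩
  · rw [← h4]
    have := congrArg (algebraMap (𝓞 K) K) h3
    rw [map_pow, map_intCast] at this
    exact this
  · rintro ⟨s, hs⟩
    rw [← h4] at hs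
    rw [hs] at h3
    have h5 : (2 * α - (t : 𝓞 K) - (s : 𝓞 K)) * (2 * α - (t : 𝓞 K) + (s : 𝓞 K)) = 0 := by
      have : (2 * α - (t : 𝓞 K)) ^ 2 = (s : 𝓞 K) * s := by rw [h3]; push_cast; rfl
      linear_combination this
    rcases mul_eq_zero.mp h5 with h6 | h6
    · obtain ⟨m', hm'⟩ := int_of_two_mul (u := t + s) h2 (α := α) (by
        push_cast; linear_combination h6)
      exact hα m' hm'
    · obtain ⟨m', hm'⟩ := int_of_two_mul (u := t - s) h2 (α := α) (by
        push_cast; linear_combination h6)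
      exact hα m' hm'

end Pool.Agent.TH847.LS
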