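import Pool.Agent.TH847.LS.Eul
import Pool.Agent.Helper923.HMertens

/-! The sum over the small primes. -/

set_option autoImplicit false

namespace Pool.Agent.TH847.LS

open NumberField Finset
open scoped Classical

/-- reciprocal sum over a set of primes with a given number of elements -/
theorem sum_inv_card : ∃ C : ℝ, 0 ≤ C ∧ ∀ S : Finset ℕ, (∀ p ∈ S, p.Prime) →
    ∑ p ∈ S, 1 / (p : ℝ) ≤ Real.log (Real.log (S.card + 2)) + C := by
  obtain ⟨C, hC0, hC⟩ := Pool.Agent.Helper923.HMertens.mertens_ratio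
  have hl2 : (0 : ℝ) < Real.log 2 := Real.log_pos (by norm_num)
  refine ⟨C / Real.log 2 + |Real.log (Real.log 2)| + 2, by positivity, fun S hS => ?_⟩
  set k := S.card with hk
  have h1 := hC 2 (k + 2) le_rfl (by omega)
  rw [abs_le] at h1
  have h2 : ∑ p ∈ S, 1 / (p : ℝ) ≤ ∑ p ∈ S.filter (fun p => p ≤ k + 2), 1 / (p : ℝ) +
      ∑ p ∈ S.filter (fun p => ¬ p ≤ k + 2), 1 / (p : ℝ) :=
    (Finset.sum_filter_add_sum_filter_not _ _ _).symm.le
  have h3 : ∑ p ∈ S.filter (fun p => ¬ p ≤ k + 2), 1 / (p : ℝ) ≤ 1 := by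
    calc ∑ p ∈ S.filter (fun p => ¬ p ≤ k + 2), 1 / (p : ℝ)
        ≤ ∑ p ∈ S.filter (fun p => ¬ p ≤ k + 2), 1 / ((k : ℝ) + 1) := by
          refine Finset.sum_le_sum fun p hp => ?_
          rw [mem_filter, not_le] at hp
          have : ((k : ℝ) + 1) ≤ p := by exact_mod_cast (by omega : k + 1 ≤ p)
          gcongr
      _ = ((S.filter (fun p => ¬ p ≤ k + 2)).card : ℝ) * (1 / ((k : ℝ) + 1)) := by
          rw [Finset.sum_const, nsmul_eq_mul]
      _ ≤ ((k : ℝ) + 1) * (1 / ((k : ℝ) + 1)) := by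
          refine mul_le_mul_of_nonneg_right ?_ (by positivity)
          have : (S.filter (fun p => ¬ p ≤ k + 2)).card ≤ k := Finset.card_filter_le _ _
          exact_mod_cast this.trans (Nat.le_succ _)
      _ = 1 := by field_simp
  have h4 : ∑ p ∈ S.filter (fun p => p ≤ k + 2), 1 / (p : ℝ) ≤
      1 / 2 + ∑ p ∈ (Finset.Ioc 2 (k + 2)).filter Nat.Prime, 1 / (p : ℝ) := by
    have hsub : S.filter (fun p => p ≤ k + 2) ⊆
        insert 2 ((Finset.Ioc 2 (k + 2)).filter Nat.Prime) := by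
      intro p hp
      rw [mem_filter] at hp
      have h5 := hS p hp.1
      rw [mem_insert, mem_filter, mem_Ioc]
      by_cases h6 : p = 2
      · exact Or.inl h6
      · right
        have := h5.two_le
        exact ⟨⟨by omega, hp.2⟩, h5⟩
    refine (Finset.sum_le_sum_of_subset_of_nonneg hsub fun _ _ _ => by positivity).trans ?_
    rw [Finset.sum_insert (by simp)]
    norm_num
  have h5 : Real.log (Real.log ((k + 2 : ℕ) : ℝ) / Real.log ((2 : ℕ) : ℝ)) =
      Real.log (Real.log ((k : ℝ) + 2)) - Real.log (Real.log 2) := by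
    push_cast
    rw [Real.log_div]
    · exact (Real.log_pos (by have : (0 : ℝ) ≤ k := by positivity
                              linarith)).ne'
    · exact hl2.ne'
  have h6 := neg_abs_le (Real.log (Real.log 2))
  have h7 := h1.2
  rw [h5] at h7
  push_cast at h7
  linarith

/-- the largest `y` with `(30 y^2)^l < D`, or 2 -/
noncomputable def yy (l D : ℕ) : ℕ := max 2 (Nat.findGreatest (fun n => (30 * n ^ 2) ^ l < D) D)

theorem yy_two (l D : ℕ) : 2 ≤ yy l D := le_max_left _ _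

theorem of_le_yy {l D p : ℕ} (hl : 1 ≤ l) (hD : 1 < D) (hp : 2 < p) (h : p ≤ yy l D) :
    (30 * p ^ 2) ^ l < D := by
  unfold yy at h
  rcases le_max_iff.mp h with h1 | h1
  · omega
  · have h2 : (30 * (Nat.findGreatest (fun n => (30 * n ^ 2) ^ l < D) D) ^ 2) ^ l < D := by
      refine Nat.findGreatest_spec (P := fun n => (30 * n ^ 2) ^ l < D) (m := 0) (Nat.zero_le _) ?_
      rw [zero_pow two_ne_zero, mul_zero, zero_pow (by omega)]
      omega
    refine lt_of_le_of_lt ?_ h2
    gcongr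

theorem log_D_le {l D : ℕ} (hl : 1 ≤ l) (hD : 1 < D) :
    Real.log D ≤ 9 * l * Real.log (yy l D) := by
  set y := yy l D with hy
  have h2 : 2 ≤ y := yy_two l D
  have h1 : D ≤ (30 * (y + 1) ^ 2) ^ l := by
    by_contra hcon
    push Not at hcon
    have h3 : y + 1 ≤ D := by
      have : y + 1 ≤ (30 * (y + 1) ^ 2) ^ l := by
        calc y + 1 ≤ 30 * (y + 1) ^ 2 := by nlinarith
          _ ≤ _ := Nat.le_self_pow (by omega) _
      omega
    have h4 : y + 1 ≤ Nat.findGreatest (fun n => (30 * n ^ 2) ^ l < D) D :=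
      Nat.le_findGreatest h3 hcon
    have h5 : y + 1 ≤ y := h4.trans (le_max_right _ _)
    omega
  have hyr : (2 : ℝ) ≤ y := by exact_mod_cast h2
  have hD0 : (0 : ℝ) < D := by exact_mod_cast (by omega : 0 < D)
  have h3 : Real.log D ≤ Real.log (((30 * ((y : ℝ) + 1) ^ 2)) ^ l) := by
    apply Real.log_le_log hD0
    exact_mod_cast h1
  have h4 : 30 * ((y : ℝ) + 1) ^ 2 ≤ (y : ℝ) ^ 9 := by
    have e1 : (y : ℝ) + 1 ≤ y ^ 2 := by nlinarith
    have e2 : (2 : ℝ) ^ 5 ≤ y ^ 5 := by gcongr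
    calc 30 * ((y : ℝ) + 1) ^ 2 ≤ (2 : ℝ) ^ 5 * ((y : ℝ) ^ 2) ^ 2 := by
          have e3 : ((y : ℝ) + 1) ^ 2 ≤ ((y : ℝ) ^ 2) ^ 2 := by gcongr
          have e4 : 0 ≤ ((y : ℝ) + 1) ^ 2 := by positivity
          norm_num at *
          linarith
      _ ≤ (y : ℝ) ^ 5 * ((y : ℝ) ^ 2) ^ 2 := by gcongr
      _ = (y : ℝ) ^ 9 := by ring
  have h5 : Real.log ((30 * ((y : ℝ) + 1) ^ 2) ^ l) ≤ Real.log (((y : ℝ) ^ 9) ^ l) := by
    apply Real.log_le_log (by positivity)
    gcongr
  have h6 : Real.log (((y : ℝ) ^ 9) ^ l) = 9 * l * Real.log y := by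
    rw [Real.log_pow, Real.log_pow]
    push_cast
    ring
  linarith

variable (K : Type) [Field K] [NumberField K]

/-- the small primes that are norms -/
noncomputable def KT (l D : ℕ) : Finset ℕ := (TT K D).filter (fun p => (30 * p ^ 2) ^ l < D)

variable {K}

theorem sum_TT : ∃ C : ℝ, 0 < C ∧ ∀ (K : Type) [Field K] [NumberField K] (l D N : ℕ),
    1 ≤ l → 1 < D → 1 < N → Real.log N ≤ 9 * Real.log D →
    Real.exp (2 * ∑ p ∈ TT K N, 1 / (p : ℝ)) ≤
      C * l ^ 2 * (Real.log ((KT K l D).card + 2)) ^ 2 := by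
  obtain ⟨C, hC0, hC⟩ := Pool.Agent.Helper923.HMertens.mertens_ratio
  obtain ⟨C1, hC10, hC1⟩ := sum_inv_card
  have hl2 : (0 : ℝ) < Real.log 2 := Real.log_pos (by norm_num)
  refine ⟨Real.exp (2 * (C / Real.log 2 + C1)) * 81 ^ 2 * 2 ^ 2, by positivity, ?_⟩
  intro K _ _ l D N hl hD hN hND
  set y := yy l D with hy
  have hy2 : 2 ≤ y := yy_two l D
  have hyr : (2 : ℝ) ≤ y := by exact_mod_cast hy2
  have hly : 0 < Real.log y := Real.log_pos (by linarith)
  set k := (KT K l D).card with hk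
  -- the primes up to y
  have h1 : (TT K y).card ≤ k + 1 := by
    have hsub : TT K y ⊆ insert 2 (KT K l D) := by
      intro p hp
      have hp' := mem_TT.mp hp
      rw [mem_insert]
      by_cases h2 : p = 2
      · exact Or.inl h2
      · right
        have h3 := of_le_yy hl hD (by have := hp'.1.2.two_le; omega) hp'.1.1
        rw [KT, mem_filter, mem_TT]
        refine ⟨⟨⟨?_, hp'.1.2⟩, hp'.2⟩, h3⟩
        have h4 : p ≤ (30 * p ^ 2) ^ l := by
          calc p ≤ 30 * p ^ 2 := by nlinarith [hp'.1.2.one_lt]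
            _ ≤ _ := Nat.le_self_pow (by omega) _
        omega
    exact (Finset.card_le_card hsub).trans (Finset.card_insert_le _ _)
  have h3 : ∑ p ∈ TT K y, 1 / (p : ℝ) ≤ Real.log (Real.log ((k : ℝ) + 3)) + C1 := by
    refine (hC1 (TT K y) fun p hp => (mem_TT.mp hp).1.2).trans ?_
    have e1 : ((TT K y).card : ℝ) ≤ (k : ℝ) + 1 := by exact_mod_cast h1
    have e2 : (0 : ℝ) ≤ (TT K y).card := by positivity
    have e3 : 0 < Real.log (((TT K y).card : ℝ) + 2) := Real.log_pos (by linarith)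
    have e4 : Real.log (((TT K y).card : ℝ) + 2) ≤ Real.log ((k : ℝ) + 3) :=
      Real.log_le_log (by linarith) (by linarith)
    have := Real.log_le_log e3 e4
    linarith
  have h4 : ∑ p ∈ TT K N, 1 / (p : ℝ) ≤ ∑ p ∈ TT K y, 1 / (p : ℝ) +
      (Real.log (81 * l) + C / Real.log 2) := by
    have hl1 : (1 : ℝ) ≤ l := by exact_mod_cast hl
    have hlog81 : 0 ≤ Real.log (81 * l) := Real.log_nonneg (by linarith)
    rcases le_total N y with hNy | hNy
    · have hsub : TT K N ⊆ TT K y := by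
        intro p hp
        rw [mem_TT] at hp ⊢
        exact ⟨⟨hp.1.1.trans hNy, hp.1.2⟩, hp.2⟩
      have := Finset.sum_le_sum_of_subset_of_nonneg (f := fun p : ℕ => 1 / (p : ℝ)) hsub
        fun _ _ _ => by positivity
      have h0 : 0 ≤ C / Real.log 2 := by positivity
      linarith
    · have hsub : TT K N ⊆ TT K y ∪ (Finset.Ioc y N).filter Nat.Prime := by
        intro p hp
        rw [mem_TT] at hp
        rw [mem_union, mem_TT, mem_filter, mem_Ioc]
        rcases le_or_gt p y with h | h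
        · exact Or.inl ⟨⟨h, hp.1.2⟩, hp.2⟩
        · exact Or.inr ⟨⟨h, hp.1.1⟩, hp.1.2⟩
      have h5 := Finset.sum_le_sum_of_subset_of_nonneg (f := fun p : ℕ => 1 / (p : ℝ)) hsub
        fun _ _ _ => by positivity
      have h6 : ∑ p ∈ TT K y ∪ (Finset.Ioc y N).filter Nat.Prime, 1 / (p : ℝ) ≤
          ∑ p ∈ TT K y, 1 / (p : ℝ) + ∑ p ∈ (Finset.Ioc y N).filter Nat.Prime, 1 / (p : ℝ) := by
        rw [← Finset.sum_union_inter]
        have : 0 ≤ ∑ p ∈ TT K y ∩ (Finset.Ioc y N).filter Nat.Prime, 1 / (p : ℝ) :=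
          Finset.sum_nonneg fun _ _ => by positivity
        linarith
      have h7 := (abs_le.mp (hC y N hy2 hNy)).2
      have h8 : C / Real.log y ≤ C / Real.log 2 := by
        gcongr
      have h9 : Real.log (Real.log N / Real.log y) ≤ Real.log (81 * l) := by
        have e0 : 0 < Real.log N := Real.log_pos (by exact_mod_cast hN)
        apply Real.log_le_log (by positivity)
        rw [div_le_iff₀ hly]
        have := log_D_le hl hD
        rw [← hy] at this
        nlinarith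
      linarith
  have hk0 : (0 : ℝ) ≤ k := by positivity
  have hlk2 : 0 < Real.log ((k : ℝ) + 2) := Real.log_pos (by linarith)
  have hlk3 : 0 < Real.log ((k : ℝ) + 3) := Real.log_pos (by linarith)
  have h5 : Real.log ((k : ℝ) + 3) ≤ 2 * Real.log ((k : ℝ) + 2) := by
    have : 2 * Real.log ((k : ℝ) + 2) = Real.log (((k : ℝ) + 2) ^ 2) := by
      rw [Real.log_pow]; norm_num
    rw [this]
    apply Real.log_le_log (by linarith)
    nlinarith
  have hl1 : (1 : ℝ) ≤ l := by exact_mod_cast hl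
  calc Real.exp (2 * ∑ p ∈ TT K N, 1 / (p : ℝ))
      ≤ Real.exp (2 * (C / Real.log 2 + C1) + (2 * Real.log (Real.log ((k : ℝ) + 3)) +
          2 * Real.log (81 * l))) := by
        apply Real.exp_le_exp.mpr
        linarith
    _ = Real.exp (2 * (C / Real.log 2 + C1)) * ((Real.log ((k : ℝ) + 3)) ^ 2 *
          (81 * l) ^ 2) := by
        rw [Real.exp_add, Real.exp_add]
        have e1 : ∀ x : ℝ, 0 < x → Real.exp (2 * Real.log x) = x ^ 2 := fun x hx => by
          rw [two_mul, Real.exp_add, Real.exp_log hx, sq]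
        rw [e1 _ hlk3, e1 _ (by positivity)]
    _ ≤ Real.exp (2 * (C / Real.log 2 + C1)) * ((2 * Real.log ((k : ℝ) + 2)) ^ 2 *
          (81 * l) ^ 2) := by
        gcongr
    _ = _ := by ring

end Pool.Agent.TH847.LS
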