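import Mathlib

/-! Counting ideals of bounded norm in a quadratic field. -/

set_option autoImplicit false

namespace Pool.Agent.TH847.LS

open NumberField Finset
open scoped Classical

variable (K : Type) [Field K] [NumberField K]

/-- nonzero ideals with norm at most `N` -/
noncomputable def FI (N : ℕ) : Finset (Ideal (𝓞 K)) :=
  (Ideal.finite_setOfPred_absNorm_le (S := 𝓞 K) N).toFinset.filter (fun I => I ≠ ⊥)

/-- prime ideals with norm at most `N` -/
noncomputable def PI (N : ℕ) : Finset (Ideal (𝓞 K)) := (FI K N).filter (fun I => I.IsPrime)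

variable {K}

theorem mem_FI {N : ℕ} {I : Ideal (𝓞 K)} : I ∈ FI K N ↔ Ideal.absNorm I ≤ N ∧ I ≠ ⊥ := by
  simp [FI]

theorem mem_PI {N : ℕ} {I : Ideal (𝓞 K)} :
    I ∈ PI K N ↔ (Ideal.absNorm I ≤ N ∧ I ≠ ⊥) ∧ I.IsPrime := by
  simp [PI, mem_FI]

theorem absNorm_pos {I : Ideal (𝓞 K)} (h : I ≠ ⊥) : 0 < Ideal.absNorm I := by
  rw [Nat.pos_iff_ne_zero]
  exact fun h0 => h (Ideal.absNorm_eq_zero_iff.mp h0)

theorem two_le_absNorm {P : Ideal (𝓞 K)} (h : P ≠ ⊥) (hP : P.IsPrime) : 2 ≤ Ideal.absNorm P := by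
  have h1 := absNorm_pos h
  have h2 : Ideal.absNorm P ≠ 1 := fun h => hP.ne_top (Ideal.absNorm_eq_one_iff.mp h)
  omega

theorem prime_of {P : Ideal (𝓞 K)} (h : P ≠ ⊥) (hP : P.IsPrime) : Prime P :=
  Ideal.prime_of_isPrime h hP

/-- the number of ideals divisible by a given one -/
theorem card_dvd {N : ℕ} {Q : Ideal (𝓞 K)} (hQ : Q ≠ ⊥) :
    ((FI K N).filter (fun I => Q ∣ I)).card =
      ((FI K N).filter (fun J => Ideal.absNorm J * Ideal.absNorm Q ≤ N)).card := by
  symm
  refine Finset.card_bij (fun J _ => Q * J) ?_ ?_ ?_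
  · intro J hJ
    rw [mem_filter, mem_FI] at hJ ⊢
    refine ⟨⟨?_, ?_⟩, dvd_mul_right _ _⟩
    · rw [map_mul, mul_comm]; exact hJ.2
    · rw [Ne, ← Ideal.zero_eq_bot, mul_eq_zero, not_or]
      exact ⟨hQ, hJ.1.2⟩
  · intro J _ J' _ h
    exact mul_left_cancel₀ (by rwa [Ideal.zero_eq_bot]) h
  · intro I hI
    rw [mem_filter, mem_FI] at hI
    obtain ⟨⟨h1, h2⟩, J, rfl⟩ := hI
    rw [Ne, ← Ideal.zero_eq_bot, mul_eq_zero, not_or] at h2
    refine ⟨J, ?_, rfl⟩
    rw [mem_filter, mem_FI]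
    rw [map_mul, mul_comm] at h1
    refine ⟨⟨?_, h2.2⟩, h1⟩
    exact le_trans (Nat.le_mul_of_pos_right _ (absNorm_pos hQ)) h1

theorem log_absNorm {N : ℕ} {I : Ideal (𝓞 K)} (hI : I ∈ FI K N) :
    Real.log (Ideal.absNorm I) = ∑ P ∈ PI K N, ∑ j ∈ Icc 1 N,
      if P ^ j ∣ I then Real.log (Ideal.absNorm P) else 0 := by
  rw [mem_FI] at hI
  obtain ⟨hN, h0⟩ := hI
  have h0' : I ≠ 0 := h0
  have h1 : Ideal.absNorm I =
      ((UniqueFactorizationMonoid.normalizedFactors I).map Ideal.absNorm).prod := by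
    conv_lhs => rw [← Ideal.prod_normalizedFactors_eq_self h0]
    rw [map_multiset_prod]
  have hsub : (UniqueFactorizationMonoid.normalizedFactors I).toFinset ⊆ PI K N := by
    intro P hP
    rw [Multiset.mem_toFinset] at hP
    have hPp : Prime P := UniqueFactorizationMonoid.prime_of_normalized_factor P hP
    have hd : P ∣ I := UniqueFactorizationMonoid.dvd_of_mem_normalizedFactors hP
    rw [mem_PI]
    refine ⟨⟨?_, hPp.ne_zero⟩, Ideal.isPrime_of_prime hPp⟩
    exact le_trans (Nat.le_of_dvd (absNorm_pos h0) (Ideal.absNorm_dvd_absNorm_of_le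
      (Ideal.le_of_dvd hd))) hN
  have h2 : Real.log (Ideal.absNorm I) = ∑ P ∈ PI K N,
      (Multiset.count P (UniqueFactorizationMonoid.normalizedFactors I) : ℝ) *
        Real.log (Ideal.absNorm P) := by
    rw [h1, Finset.prod_multiset_map_count, Nat.cast_prod, Real.log_prod]
    · rw [← Finset.sum_subset hsub]
      · refine Finset.sum_congr rfl fun P hP => ?_
        rw [Nat.cast_pow, Real.log_pow]
      · intro P _ hP
        rw [Multiset.mem_toFinset] at hP
        rw [Multiset.count_eq_zero_of_notMem hP]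
        simp
    · intro P hP
      rw [Multiset.mem_toFinset] at hP
      have hPp : Prime P := UniqueFactorizationMonoid.prime_of_normalized_factor P hP
      have := absNorm_pos (I := P) hPp.ne_zero
      positivity
  rw [h2]
  refine Finset.sum_congr rfl fun P hP => ?_
  rw [mem_PI] at hP
  have hPp : Prime P := prime_of hP.1.2 hP.2
  rw [← Finset.sum_filter, Finset.sum_const, nsmul_eq_mul]
  congr 2
  have h3 : (Icc 1 N).filter (fun j => P ^ j ∣ I) =
      Icc 1 (Multiset.count P (UniqueFactorizationMonoid.normalizedFactors I)) := by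
    ext j
    have h4 : P ^ j ∣ I ↔ j ≤ Multiset.count P
        (UniqueFactorizationMonoid.normalizedFactors I) := by
      rw [pow_dvd_iff_le_emultiplicity,
        UniqueFactorizationMonoid.emultiplicity_eq_count_normalizedFactors hPp.irreducible h0',
        normalize_eq]
      exact Nat.cast_le
    rw [mem_filter, mem_Icc, mem_Icc, h4]
    constructor
    · rintro ⟨⟨a, b⟩, c⟩
      exact ⟨a, c⟩
    · rintro ⟨a, c⟩
      refine ⟨⟨a, ?_⟩, c⟩
      have h5 := h4.mpr c
      have h6 : Ideal.absNorm P ^ j ≤ Ideal.absNorm I := by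
        rw [← map_pow]
        exact Nat.le_of_dvd (absNorm_pos h0) (Ideal.absNorm_dvd_absNorm_of_le
          (Ideal.le_of_dvd h5))
      have h7 : 2 ^ j ≤ Ideal.absNorm P ^ j :=
        Nat.pow_le_pow_left (two_le_absNorm hP.1.2 hP.2) j
      have h8 : j < 2 ^ j := Nat.lt_two_pow_self
      omega
  rw [h3, Nat.card_Icc]
  simp

/-- the Chebyshev function of the field -/
noncomputable def psiK (K : Type) [Field K] [NumberField K] (m : ℕ) : ℝ :=
  ∑ P ∈ PI K m, (Nat.log (Ideal.absNorm P) m : ℝ) * Real.log (Ideal.absNorm P)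

theorem sum_log_absNorm (N : ℕ) : ∑ I ∈ FI K N, Real.log (Ideal.absNorm I) ≤
    ∑ J ∈ FI K N, psiK K (N / Ideal.absNorm J) := by
  have h1 : ∑ I ∈ FI K N, Real.log (Ideal.absNorm I) = ∑ P ∈ PI K N, ∑ j ∈ Icc 1 N,
      ∑ J ∈ FI K N, if Ideal.absNorm J * Ideal.absNorm P ^ j ≤ N then
        Real.log (Ideal.absNorm P) else 0 := by
    rw [Finset.sum_congr rfl fun I hI => log_absNorm hI, Finset.sum_comm]
    refine Finset.sum_congr rfl fun P hP => ?_
    rw [mem_PI] at hP
    rw [Finset.sum_comm]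
    refine Finset.sum_congr rfl fun j _ => ?_
    rw [← Finset.sum_filter, ← Finset.sum_filter, Finset.sum_const, Finset.sum_const]
    congr 1
    have hne : P ^ j ≠ ⊥ := by
      rw [← Ideal.zero_eq_bot]; exact pow_ne_zero _ hP.1.2
    have := card_dvd (N := N) hne
    rw [this, map_pow]
  rw [h1, Finset.sum_congr rfl fun P _ => Finset.sum_comm, Finset.sum_comm]
  refine Finset.sum_le_sum fun J hJ => ?_
  rw [mem_FI] at hJ
  have hJ0 := absNorm_pos hJ.2
  have hm : N / Ideal.absNorm J ≠ 0 := by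
    rw [Nat.div_ne_zero_iff]
    exact ⟨hJ0.ne', hJ.1⟩
  have key : ∀ P : Ideal (𝓞 K), P ≠ ⊥ → P.IsPrime →
      (∑ j ∈ Icc 1 N, if Ideal.absNorm J * Ideal.absNorm P ^ j ≤ N then
        Real.log (Ideal.absNorm P) else 0) ≤
      (Nat.log (Ideal.absNorm P) (N / Ideal.absNorm J) : ℝ) * Real.log (Ideal.absNorm P) := by
    intro P hP0 hP
    have h2 := two_le_absNorm hP0 hP
    have hl : 0 ≤ Real.log (Ideal.absNorm P) := Real.log_natCast_nonneg _
    rw [← Finset.sum_filter, Finset.sum_const, nsmul_eq_mul]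
    refine mul_le_mul_of_nonneg_right ?_ hl
    rw [Nat.cast_le]
    have : (Icc 1 N).filter (fun j => Ideal.absNorm J * Ideal.absNorm P ^ j ≤ N) ⊆
        Icc 1 (Nat.log (Ideal.absNorm P) (N / Ideal.absNorm J)) := by
      intro j hj
      rw [mem_filter, mem_Icc] at hj
      rw [mem_Icc]
      refine ⟨hj.1.1, Nat.le_log_of_pow_le (by omega) ?_⟩
      rw [Nat.le_div_iff_mul_le hJ0, mul_comm]
      exact hj.2
    refine (Finset.card_le_card this).trans ?_
    rw [Nat.card_Icc]
    omega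
  unfold psiK
  have hsub : PI K (N / Ideal.absNorm J) ⊆ PI K N := by
    intro P hP
    rw [mem_PI] at hP ⊢
    exact ⟨⟨hP.1.1.trans (Nat.div_le_self _ _), hP.1.2⟩, hP.2⟩
  rw [← Finset.sum_subset hsub (f := fun P => ∑ j ∈ Icc 1 N,
    if Ideal.absNorm J * Ideal.absNorm P ^ j ≤ N then Real.log (Ideal.absNorm P) else 0)]
  · refine Finset.sum_le_sum fun P hP => ?_
    rw [mem_PI] at hP
    exact key P hP.1.2 hP.2
  · intro P hP hP'
    rw [mem_PI] at hP hP'
    refine Finset.sum_eq_zero fun j hj => ?_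
    rw [mem_Icc] at hj
    rw [if_neg]
    intro hle
    apply hP'
    refine ⟨⟨?_, hP.1.2⟩, hP.2⟩
    rw [Nat.le_div_iff_mul_le hJ0, mul_comm]
    refine le_trans (Nat.mul_le_mul_left _ ?_) hle
    exact Nat.le_self_pow (by omega) _

end Pool.Agent.TH847.LS
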