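import Pool.Agent.TH847.LS.Cnt

/-! The Euler product and the Chebyshev bound for a quadratic field. -/

set_option autoImplicit false

namespace Pool.Agent.TH847.LS

open NumberField Finset
open scoped Classical

variable (K : Type) [Field K] [NumberField K]

/-- the sum of the reciprocals of the norms -/
noncomputable def SK (N : ℕ) : ℝ := ∑ I ∈ FI K N, 1 / (Ideal.absNorm I : ℝ)

/-- primes up to `N` that are the norm of an ideal -/
noncomputable def TT (N : ℕ) : Finset ℕ :=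
  ((Finset.Icc 1 N).filter Nat.Prime).filter (fun p => ∃ P : Ideal (𝓞 K), Ideal.absNorm P = p)

variable {K}

theorem mem_TT {N p : ℕ} : p ∈ TT K N ↔ (p ≤ N ∧ p.Prime) ∧ ∃ P : Ideal (𝓞 K), Ideal.absNorm P = p := by
  rw [TT, mem_filter, mem_filter, mem_Icc]
  constructor
  · rintro ⟨⟨⟨_, h1⟩, h2⟩, h3⟩
    exact ⟨⟨h1, h2⟩, h3⟩
  · rintro ⟨⟨h1, h2⟩, h3⟩
    exact ⟨⟨⟨h2.one_lt.le, h1⟩, h2⟩, h3⟩

/-- the recursion for the Euler product -/
theorem euler_step (N : ℕ) (s : Finset (Ideal (𝓞 K))) (P : Ideal (𝓞 K)) (h0 : P ≠ ⊥)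
    (hP : P.IsPrime) :
    (∑ I ∈ (FI K N).filter (fun I => ∀ Q : Ideal (𝓞 K), Q.IsPrime → Q ∣ I → Q ∈ insert P s),
      1 / (Ideal.absNorm I : ℝ)) * (1 - 1 / (Ideal.absNorm P : ℝ)) ≤
    ∑ I ∈ (FI K N).filter (fun I => ∀ Q : Ideal (𝓞 K), Q.IsPrime → Q ∣ I → Q ∈ s),
      1 / (Ideal.absNorm I : ℝ) := by
  set F := (FI K N).filter (fun I => ∀ Q : Ideal (𝓞 K), Q.IsPrime → Q ∣ I → Q ∈ insert P s)
    with hF
  have h1 : ∑ I ∈ F, 1 / (Ideal.absNorm I : ℝ) = ∑ I ∈ F.filter (fun I => P ∣ I),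
      1 / (Ideal.absNorm I : ℝ) + ∑ I ∈ F.filter (fun I => ¬ P ∣ I), 1 / (Ideal.absNorm I : ℝ) :=
    (Finset.sum_filter_add_sum_filter_not _ _ _).symm
  have hinj : Function.Injective (fun J : Ideal (𝓞 K) => P * J) := fun a b h =>
    mul_left_cancel₀ (by rwa [Ideal.zero_eq_bot]) h
  have h2 : ∑ I ∈ F.filter (fun I => P ∣ I), 1 / (Ideal.absNorm I : ℝ) ≤
      (∑ I ∈ F, 1 / (Ideal.absNorm I : ℝ)) * (1 / (Ideal.absNorm P : ℝ)) := by
    have hsub : F.filter (fun I => P ∣ I) ⊆ F.image (fun J => P * J) := by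
      intro I hI
      rw [mem_filter, hF, mem_filter, mem_FI] at hI
      obtain ⟨⟨⟨h1, h2⟩, h3⟩, J, rfl⟩ := hI
      rw [Finset.mem_image]
      refine ⟨J, ?_, rfl⟩
      rw [Ne, ← Ideal.zero_eq_bot, mul_eq_zero, not_or] at h2
      rw [hF, mem_filter, mem_FI]
      refine ⟨⟨?_, h2.2⟩, fun Q hQ hd => h3 Q hQ (hd.trans (dvd_mul_left _ _))⟩
      rw [map_mul] at h1
      exact le_trans (Nat.le_mul_of_pos_left _ (absNorm_pos h0)) h1
    refine (Finset.sum_le_sum_of_subset_of_nonneg hsub fun _ _ _ => by positivity).trans ?_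
    rw [Finset.sum_image fun a _ b _ h => hinj h, Finset.sum_mul]
    refine Finset.sum_le_sum fun J _ => le_of_eq ?_
    rw [map_mul, Nat.cast_mul, one_div_mul_one_div, mul_comm]
  have h3 : ∑ I ∈ F.filter (fun I => ¬ P ∣ I), 1 / (Ideal.absNorm I : ℝ) ≤
      ∑ I ∈ (FI K N).filter (fun I => ∀ Q : Ideal (𝓞 K), Q.IsPrime → Q ∣ I → Q ∈ s),
      1 / (Ideal.absNorm I : ℝ) := by
    refine Finset.sum_le_sum_of_subset_of_nonneg ?_ fun _ _ _ => by positivity
    intro I hI
    rw [mem_filter, hF, mem_filter] at hI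
    rw [mem_filter]
    refine ⟨hI.1.1, fun Q hQ hd => ?_⟩
    rcases Finset.mem_insert.mp (hI.1.2 Q hQ hd) with h | h
    · exact absurd (h ▸ hd) hI.2
    · exact h
  rw [mul_sub, mul_one]
  linarith

theorem SK_le_prod (N : ℕ) : SK K N ≤ Real.exp (∑ P ∈ PI K N,
    (1 / (Ideal.absNorm P : ℝ) + 2 / (Ideal.absNorm P : ℝ) ^ 2)) := by
  have key : ∀ s : Finset (Ideal (𝓞 K)), (∀ P ∈ s, P ≠ ⊥ ∧ P.IsPrime) →
      ∑ I ∈ (FI K N).filter (fun I => ∀ Q : Ideal (𝓞 K), Q.IsPrime → Q ∣ I → Q ∈ s),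
        1 / (Ideal.absNorm I : ℝ) ≤
      Real.exp (∑ P ∈ s, (1 / (Ideal.absNorm P : ℝ) + 2 / (Ideal.absNorm P : ℝ) ^ 2)) := by
    intro s
    induction s using Finset.induction_on with
    | empty =>
      intro _
      rw [Finset.sum_empty, Real.exp_zero]
      have hsub : (FI K N).filter (fun I => ∀ Q : Ideal (𝓞 K), Q.IsPrime → Q ∣ I →
          Q ∈ (∅ : Finset (Ideal (𝓞 K)))) ⊆ {⊤} := by
        intro I hI
        rw [mem_filter] at hI
        rw [Finset.mem_singleton]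
        by_contra hne
        obtain ⟨M, hM, hIM⟩ := Ideal.exists_le_maximal I hne
        have := hI.2 M hM.isPrime (Ideal.dvd_iff_le.mpr hIM)
        simp at this
      refine (Finset.sum_le_sum_of_subset_of_nonneg hsub fun _ _ _ => by positivity).trans ?_
      simp
    | insert P s hPs ih =>
      intro h
      obtain ⟨h0, hP⟩ := h P (Finset.mem_insert_self _ _)
      have ih' := ih fun Q hQ => h Q (Finset.mem_insert_of_mem hQ)
      have hst := euler_step N s P h0 hP
      have h2 : (2 : ℝ) ≤ Ideal.absNorm P := by exact_mod_cast two_le_absNorm h0 hP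
      set n : ℝ := (Ideal.absNorm P : ℝ) with hn
      rw [Finset.sum_insert hPs, Real.exp_add]
      have h3 : 0 < 1 - 1 / n := by
        rw [sub_pos, div_lt_one (by linarith)]
        linarith
      have h4 : 1 ≤ Real.exp (1 / n + 2 / n ^ 2) * (1 - 1 / n) := by
        have e1 := Real.add_one_le_exp (1 / n + 2 / n ^ 2)
        have e2 : (1 / n + 2 / n ^ 2 + 1) * (1 - 1 / n) = 1 + (n - 2) / n ^ 3 := by
          field_simp
          ring
        have e3 : 0 ≤ (n - 2) / n ^ 3 := div_nonneg (by linarith) (by positivity)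
        nlinarith
      set A := ∑ I ∈ (FI K N).filter (fun I => ∀ Q : Ideal (𝓞 K), Q.IsPrime → Q ∣ I →
        Q ∈ insert P s), 1 / (Ideal.absNorm I : ℝ) with hA
      set B := ∑ P ∈ s, (1 / (Ideal.absNorm P : ℝ) + 2 / (Ideal.absNorm P : ℝ) ^ 2) with hB
      have hA0 : 0 ≤ A := Finset.sum_nonneg fun _ _ => by positivity
      have h5 : A * (1 - 1 / n) ≤ Real.exp B := hst.trans ih'
      calc A ≤ A * (Real.exp (1 / n + 2 / n ^ 2) * (1 - 1 / n)) :=
            le_mul_of_one_le_right hA0 h4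
        _ = Real.exp (1 / n + 2 / n ^ 2) * (A * (1 - 1 / n)) := by ring
        _ ≤ Real.exp (1 / n + 2 / n ^ 2) * Real.exp B :=
            mul_le_mul_of_nonneg_left h5 (Real.exp_pos _).le
  have h := key (PI K N) fun P hP => by
    rw [mem_PI] at hP
    exact ⟨hP.1.2, hP.2⟩
  refine le_trans (le_of_eq ?_) h
  rw [SK]
  refine (Finset.sum_congr (Finset.filter_true_of_mem fun I hI Q hQ hd => ?_) fun _ _ => rfl).symm
  rw [mem_FI] at hI
  rw [mem_PI]
  have hQ0 : Q ≠ ⊥ := by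
    rintro rfl
    rw [← Ideal.zero_eq_bot, zero_dvd_iff] at hd
    exact hI.2 hd
  refine ⟨⟨?_, hQ0⟩, hQ⟩
  exact le_trans (Nat.le_of_dvd (absNorm_pos hI.2) (Ideal.absNorm_dvd_absNorm_of_le
    (Ideal.le_of_dvd hd))) hI.1

/-- every prime ideal: its norm is a power of a prime, which is its least prime factor -/
theorem norm_pow {P : Ideal (𝓞 K)} (h0 : P ≠ ⊥) (hP : P.IsPrime) :
    ∃ n : ℕ, 0 < n ∧ (Ideal.absNorm P).minFac.Prime ∧
      Ideal.absNorm P = (Ideal.absNorm P).minFac ^ n ∧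
      (((Ideal.absNorm P).minFac : ℕ) : 𝓞 K) ∈ P := by
  have : P.IsMaximal := hP.isMaximal h0
  obtain ⟨p, n, hn, hpP, hp, he⟩ := Ideal.exists_prime_and_absNorm_eq_pow P
  have hm : (Ideal.absNorm P).minFac = p := by
    rw [he, Nat.pow_minFac hn.ne', hp.minFac_eq]
  rw [hm]
  exact ⟨n, hn, hp, he, hpP⟩

/-- at most two prime ideals lie over a rational prime -/
theorem card_fiber (h2 : Module.finrank ℚ K = 2) (N p : ℕ) :
    ((PI K N).filter (fun P => (Ideal.absNorm P).minFac = p)).card ≤ 2 := by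
  set s := (PI K N).filter (fun P => (Ideal.absNorm P).minFac = p) with hs
  by_cases hne : s.Nonempty
  · obtain ⟨P0, hP0⟩ := hne
    rw [hs, mem_filter, mem_PI] at hP0
    obtain ⟨n0, hn0, hp, _, _⟩ := norm_pow hP0.1.1.2 hP0.1.2
    rw [hP0.2] at hp
    have hdvd : ∏ P ∈ s, P ∣ Ideal.span {((p : ℕ) : 𝓞 K)} := by
      refine Finset.prod_primes_dvd _ ?_ ?_
      · intro P hP
        rw [hs, mem_filter, mem_PI] at hP
        exact prime_of hP.1.1.2 hP.1.2
      · intro P hP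
        rw [hs, mem_filter, mem_PI] at hP
        obtain ⟨n, hn, _, _, hmem⟩ := norm_pow hP.1.1.2 hP.1.2
        rw [hP.2] at hmem
        rw [Ideal.dvd_iff_le, Ideal.span_le]
        simpa using hmem
    have hnorm : Ideal.absNorm (Ideal.span {((p : ℕ) : 𝓞 K)}) = p ^ 2 := by
      rw [Ideal.absNorm_span_natCast, RingOfIntegers.rank, h2]
    have h3 : Ideal.absNorm (∏ P ∈ s, P) ∣ p ^ 2 := by
      rw [← hnorm]
      exact Ideal.absNorm_dvd_absNorm_of_le (Ideal.le_of_dvd hdvd)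
    have h4 : p ^ s.card ∣ Ideal.absNorm (∏ P ∈ s, P) := by
      rw [map_prod, ← Finset.prod_const]
      refine Finset.prod_dvd_prod_of_dvd _ _ fun P hP => ?_
      rw [hs, mem_filter, mem_PI] at hP
      obtain ⟨n, hn, _, he, _⟩ := norm_pow hP.1.1.2 hP.1.2
      rw [he, hP.2]
      exact dvd_pow_self _ hn.ne'
    exact (Nat.pow_dvd_pow_iff_le_right hp.one_lt).mp (h4.trans h3)
  · rw [Finset.not_nonempty_iff_eq_empty] at hne
    rw [hne]
    simp

theorem sum_fiber (h2 : Module.finrank ℚ K = 2) (N : ℕ) (f : Ideal (𝓞 K) → ℝ) (g : ℕ → ℝ)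
    (T : Finset ℕ) (hg : ∀ p ∈ T, 0 ≤ g p)
    (hf : ∀ P ∈ PI K N, (Ideal.absNorm P).minFac ∈ T ∧ f P ≤ g (Ideal.absNorm P).minFac) :
    ∑ P ∈ PI K N, f P ≤ 2 * ∑ p ∈ T, g p := by
  rw [← Finset.sum_fiberwise_of_maps_to (t := T) (g := fun P => (Ideal.absNorm P).minFac)
    (fun P hP => (hf P hP).1), Finset.mul_sum]
  refine Finset.sum_le_sum fun p hp => ?_
  calc ∑ P ∈ (PI K N).filter (fun P => (Ideal.absNorm P).minFac = p), f P
      ≤ ∑ P ∈ (PI K N).filter (fun P => (Ideal.absNorm P).minFac = p), g p := by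
        refine Finset.sum_le_sum fun P hP => ?_
        rw [mem_filter] at hP
        rw [← hP.2]
        exact (hf P hP.1).2
    _ = ((PI K N).filter (fun P => (Ideal.absNorm P).minFac = p)).card * g p := by
        rw [Finset.sum_const, nsmul_eq_mul]
    _ ≤ 2 * g p := by
        refine mul_le_mul_of_nonneg_right ?_ (hg p hp)
        exact_mod_cast card_fiber h2 N p

theorem psiK_le (h2 : Module.finrank ℚ K = 2) (m : ℕ) : psiK K m ≤ 11 * m := by
  have h1 : psiK K m ≤ 2 * ∑ p ∈ Nat.primesLE m, (Nat.log p m : ℝ) * Real.log p := by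
    refine sum_fiber h2 m _ (fun p => (Nat.log p m : ℝ) * Real.log p) _ ?_ ?_
    · intro p _
      exact mul_nonneg (Nat.cast_nonneg _) (Real.log_natCast_nonneg _)
    · intro P hP
      rw [mem_PI] at hP
      obtain ⟨n, hn, hp, he, _⟩ := norm_pow hP.1.2 hP.2
      set p := (Ideal.absNorm P).minFac with hpdef
      have hm0 : m ≠ 0 := by
        have := absNorm_pos hP.1.2
        omega
      constructor
      · rw [Nat.mem_primesLE]
        refine ⟨le_trans ?_ hP.1.1, hp⟩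
        conv_rhs => rw [he]
        exact Nat.le_self_pow hn.ne' _
      · have h3 : n * Nat.log (Ideal.absNorm P) m ≤ Nat.log p m := by
          refine Nat.le_log_of_pow_le hp.one_lt ?_
          rw [pow_mul, ← he]
          exact Nat.pow_log_le_self _ hm0
        have h4 : Real.log (Ideal.absNorm P) = n * Real.log p := by
          conv_lhs => rw [he]
          rw [Nat.cast_pow, Real.log_pow]
        rw [h4, ← mul_assoc]
        refine mul_le_mul_of_nonneg_right ?_ (Real.log_natCast_nonneg _)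
        rw [mul_comm]
        exact_mod_cast h3
  have h3 := Chebyshev.psi_eq_sum_mul_log_prime m
  have h4 := Chebyshev.psi_le_const_mul_self (x := (m : ℝ)) (by positivity)
  rw [← h3] at h1
  have h5 : Real.log 4 ≤ 1.4 := by
    have : Real.log 4 = 2 * Real.log 2 := by
      rw [show (4 : ℝ) = 2 ^ 2 by norm_num, Real.log_pow]; norm_num
    have := Real.log_two_lt_d9
    linarith
  have h6 : (0 : ℝ) ≤ m := by positivity
  nlinarith

theorem sum_inv_sq (T : Finset ℕ) (hT : ∀ p ∈ T, 2 ≤ p) : ∑ p ∈ T, 1 / (p : ℝ) ^ 2 ≤ 1 := by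
  obtain ⟨N, hN⟩ : ∃ N, T ⊆ Finset.Icc 2 (N + 1) := by
    refine ⟨T.sup id, fun p hp => ?_⟩
    rw [mem_Icc]
    exact ⟨hT p hp, (Finset.le_sup (f := id) hp).trans (Nat.le_succ _)⟩
  refine (Finset.sum_le_sum_of_subset_of_nonneg hN fun _ _ _ => by positivity).trans ?_
  have : ∀ N : ℕ, ∑ p ∈ Finset.Icc 2 (N + 1), 1 / (p : ℝ) ^ 2 ≤ 1 - 1 / ((N : ℝ) + 1) := by
    intro N
    induction N with
    | zero => simp
    | succ n ih =>
      rw [Finset.sum_Icc_succ_top (by omega)]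
      have e1 : 1 / (((n + 1 + 1 : ℕ) : ℝ)) ^ 2 ≤ 1 / ((n : ℝ) + 1) - 1 / ((n : ℝ) + 1 + 1) := by
        rw [div_sub_div _ _ (by positivity) (by positivity), div_le_div_iff₀ (by positivity)
          (by positivity)]
        push_cast
        nlinarith [Nat.cast_nonneg (α := ℝ) n]
      push_cast at e1 ⊢
      linarith
  refine (this N).trans ?_
  have : 0 < 1 / ((N : ℝ) + 1) := by positivity
  linarith

theorem SK_le (h2 : Module.finrank ℚ K = 2) (N : ℕ) :
    SK K N ≤ Real.exp 6 * Real.exp (2 * ∑ p ∈ TT K N, 1 / (p : ℝ)) := by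
  refine (SK_le_prod N).trans ?_
  rw [← Real.exp_add]
  refine Real.exp_le_exp.mpr ?_
  set T := (Finset.Icc 1 N).filter Nat.Prime with hT
  have h3 : ∑ P ∈ PI K N, (1 / (Ideal.absNorm P : ℝ) + 2 / (Ideal.absNorm P : ℝ) ^ 2) ≤
      2 * ∑ p ∈ T, ((if p ∈ TT K N then 1 / (p : ℝ) else 0) + 3 * (1 / (p : ℝ) ^ 2)) := by
    refine sum_fiber h2 N _ (fun p => (if p ∈ TT K N then 1 / (p : ℝ) else 0) +
      3 * (1 / (p : ℝ) ^ 2)) _ ?_ ?_
    · intro p _
      split_ifs <;> positivity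
    · intro P hP
      rw [mem_PI] at hP
      obtain ⟨n, hn, hp, he, _⟩ := norm_pow hP.1.2 hP.2
      set p := (Ideal.absNorm P).minFac with hpdef
      have hpN : p ≤ N := le_trans (by conv_rhs => rw [he]
                                       exact Nat.le_self_pow hn.ne' _) hP.1.1
      have hp2 : (2 : ℝ) ≤ p := by exact_mod_cast hp.two_le
      have hle : (p : ℝ) ≤ Ideal.absNorm P := by
        conv_rhs => rw [he]
        exact_mod_cast Nat.le_self_pow hn.ne' _
      constructor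
      · rw [hT, mem_filter, mem_Icc]
        exact ⟨⟨hp.one_lt.le, hpN⟩, hp⟩
      · have h4 : 2 / (Ideal.absNorm P : ℝ) ^ 2 ≤ 2 * (1 / (p : ℝ) ^ 2) := by
          rw [mul_one_div]
          gcongr
        rcases Nat.lt_or_ge 1 n with h1 | h1
        · have h5 : 1 / (Ideal.absNorm P : ℝ) ≤ 1 / (p : ℝ) ^ 2 := by
            have : (p : ℝ) ^ 2 ≤ Ideal.absNorm P := by
              conv_rhs => rw [he]
              exact_mod_cast Nat.pow_le_pow_right hp.pos h1
            gcongr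
          have h6 : (0 : ℝ) ≤ if p ∈ TT K N then 1 / (p : ℝ) else 0 := by
            split_ifs <;> positivity
          linarith
        · have hn1 : n = 1 := by omega
          rw [hn1, pow_one] at he
          have hmem : p ∈ TT K N := by
            rw [mem_TT]
            exact ⟨⟨hpN, hp⟩, P, he⟩
          rw [if_pos hmem]
          have h5 : 1 / (Ideal.absNorm P : ℝ) ≤ 1 / (p : ℝ) := by gcongr
          have h6 : (0 : ℝ) < 1 / (p : ℝ) ^ 2 := by positivity
          linarith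
  refine h3.trans ?_
  rw [Finset.sum_add_distrib, ← Finset.sum_filter, ← Finset.mul_sum]
  have h4 : ∑ p ∈ T, 1 / (p : ℝ) ^ 2 ≤ 1 := sum_inv_sq T fun p hp => by
    rw [hT, mem_filter] at hp
    exact hp.2.two_le
  have h5 : T.filter (fun p => p ∈ TT K N) = TT K N := by
    ext p
    rw [mem_filter, hT, mem_filter, mem_Icc, mem_TT]
    constructor
    · rintro ⟨_, h⟩
      exact h
    · intro h
      exact ⟨⟨⟨h.1.2.one_lt.le, h.1.1⟩, h.1.2⟩, h⟩
  rw [h5]
  linarith

/-- the upper bound for the number of ideals -/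
theorem card_FI_le (h2 : Module.finrank ℚ K = 2) (N : ℕ) :
    ((FI K N).card : ℝ) * Real.log N ≤
      12 * Real.exp 6 * N * Real.exp (2 * ∑ p ∈ TT K N, 1 / (p : ℝ)) := by
  have h1 : ((FI K N).card : ℝ) * Real.log N =
      ∑ I ∈ FI K N, (Real.log N - Real.log (Ideal.absNorm I)) +
        ∑ I ∈ FI K N, Real.log (Ideal.absNorm I) := by
    rw [← Finset.sum_add_distrib]
    simp
  have h3 : ∑ I ∈ FI K N, (Real.log N - Real.log (Ideal.absNorm I)) ≤ N * SK K N := by
    rw [SK, Finset.mul_sum]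
    refine Finset.sum_le_sum fun I hI => ?_
    rw [mem_FI] at hI
    have h4 : (0 : ℝ) < Ideal.absNorm I := by exact_mod_cast absNorm_pos hI.2
    have h5 : (0 : ℝ) < N := by
      have : (Ideal.absNorm I : ℝ) ≤ N := by exact_mod_cast hI.1
      linarith
    rw [← Real.log_div h5.ne' h4.ne', mul_one_div]
    have := Real.add_one_le_exp (Real.log (N / Ideal.absNorm I))
    rw [Real.exp_log (by positivity)] at this
    linarith
  have h4 : ∑ I ∈ FI K N, Real.log (Ideal.absNorm I) ≤ 11 * (N * SK K N) := by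
    refine (sum_log_absNorm N).trans ?_
    rw [SK, Finset.mul_sum, Finset.mul_sum]
    refine Finset.sum_le_sum fun I hI => ?_
    refine (psiK_le h2 _).trans ?_
    refine mul_le_mul_of_nonneg_left ?_ (by norm_num)
    rw [mul_one_div]
    exact Nat.cast_div_le
  have h5 := SK_le h2 N
  have h6 : (0 : ℝ) ≤ N := by positivity
  rw [h1]
  calc _ ≤ 12 * (N * SK K N) := by linarith
    _ ≤ 12 * (N * (Real.exp 6 * Real.exp (2 * ∑ p ∈ TT K N, 1 / (p : ℝ)))) := by gcongr
    _ = _ := by ring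

end Pool.Agent.TH847.LS
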