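import Pool.Agent.TH847.LS.Mer
import Pool.Agent.TH847.LS.Quad

/-! Imaginary quadratic fields. -/

set_option autoImplicit false

namespace Pool.Agent.TH847.LS

open NumberField Finset
open scoped Classical nonZeroDivisors

variable {K : Type} [Field K] [NumberField K]

/-- a prime whose norm is a prime `p` divides `p`, and the cofactor has norm `p` -/
theorem cofactor (h2 : Module.finrank ℚ K = 2) {P : Ideal (𝓞 K)} {p : ℕ} (hp : p.Prime)
    (hP : Ideal.absNorm P = p) : ∃ J : Ideal (𝓞 K), P * J = Ideal.span {((p : ℕ) : 𝓞 K)} ∧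
      Ideal.absNorm J = p ∧ J ≠ ⊥ ∧ P ≠ ⊥ := by
  have h1 : P ∣ Ideal.span {((p : ℕ) : 𝓞 K)} := by
    rw [Ideal.dvd_iff_le, Ideal.span_le, Set.singleton_subset_iff, ← hP]
    exact Ideal.absNorm_mem P
  obtain ⟨J, hJ⟩ := h1
  have h3 : Ideal.absNorm P * Ideal.absNorm J = p ^ 2 := by
    rw [← map_mul, ← hJ, Ideal.absNorm_span_natCast, RingOfIntegers.rank, h2]
  rw [hP, sq] at h3
  have h4 := Nat.eq_of_mul_eq_mul_left hp.pos h3
  refine ⟨J, hJ.symm, h4, ?_, ?_⟩
  · rintro rfl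
    rw [Ideal.absNorm_bot] at h4
    exact hp.ne_zero h4.symm
  · rintro rfl
    rw [Ideal.absNorm_bot] at hP
    exact hp.ne_zero hP.symm

/-- the parity argument -/
theorem eq_of_sq {p q l : ℕ} (hp : p.Prime) (hq : q.Prime) (hl : Odd l) {m : ℕ}
    (h : m ^ 2 = (p * q) ^ l) : p = q := by
  by_contra hne
  have h1 : (m ^ 2).factorization p = ((p * q) ^ l).factorization p := by rw [h]
  rw [Nat.factorization_pow, Nat.factorization_pow, Nat.factorization_mul hp.ne_zero hq.ne_zero]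
    at h1
  simp only [Finsupp.smul_apply, Finsupp.add_apply, smul_eq_mul, hp.factorization_self] at h1
  rw [hq.factorization, Finsupp.single_apply, if_neg (Ne.symm hne), add_zero, mul_one] at h1
  obtain ⟨k, hk⟩ := hl
  omega

theorem pow_bound {p q l D : ℕ} (hp : (30 * p ^ 2) ^ l < D)
    (hq : (30 * q ^ 2) ^ l < D) : 30 ^ l * (p * q) ^ l < D := by
  have h1 : (30 ^ l * (p * q) ^ l) ^ 2 < D ^ 2 := by
    calc (30 ^ l * (p * q) ^ l) ^ 2 = (30 * p ^ 2) ^ l * (30 * q ^ 2) ^ l := by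
          simp only [mul_pow, ← pow_mul]
          ring
      _ < D * D := Nat.mul_lt_mul'' hp hq
      _ = D ^ 2 := by ring
  exact lt_of_pow_lt_pow_left₀ 2 (Nat.zero_le _) h1

theorem ev_imag (h2 : Module.finrank ℚ K = 2) (hd : discr K < 0) {l : ℕ} (hl : Odd l) :
    (KT K l (discr K).natAbs).card * Nat.card {c : ClassGroup (𝓞 K) // c ^ l = 1} ≤
      Nat.card (ClassGroup (𝓞 K)) := by
  have hl1 : 1 ≤ l := hl.pos
  set D := (discr K).natAbs with hD
  have hmem : ∀ p ∈ KT K l D, p.Prime ∧ (30 * p ^ 2) ^ l < D ∧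
      ∃ P : Ideal (𝓞 K), Ideal.absNorm P = p := by
    intro p hp
    rw [KT, mem_filter, mem_TT] at hp
    exact ⟨hp.1.1.2, hp.2, hp.1.2⟩
  have hex : ∀ p : {p // p ∈ KT K l D}, ∃ P J : (Ideal (𝓞 K))⁰,
      (P : Ideal (𝓞 K)) * (J : Ideal (𝓞 K)) = Ideal.span {((p.1 : ℕ) : 𝓞 K)} ∧
      Ideal.absNorm (P : Ideal (𝓞 K)) = p.1 ∧ Ideal.absNorm (J : Ideal (𝓞 K)) = p.1 := by
    rintro ⟨p, hp⟩
    obtain ⟨h1, -, P, hP⟩ := hmem p hp
    obtain ⟨J, a, b, c, d⟩ := cofactor h2 h1 hP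
    exact ⟨⟨P, mem_nonZeroDivisors_of_ne_zero d⟩, ⟨J, mem_nonZeroDivisors_of_ne_zero c⟩,
      a, hP, b⟩
  choose P J hPJ hP hJ using hex
  have hPJ1 : ∀ p, ClassGroup.mk0 (P p) * ClassGroup.mk0 (J p) = 1 := by
    intro p
    rw [← map_mul, ClassGroup.mk0_eq_one_iff]
    exact ⟨⟨_, hPJ p⟩⟩
  rw [← Fintype.card_coe, ← Nat.card_eq_fintype_card, ← Nat.card_prod]
  refine Nat.card_le_card_of_injective
    (fun x : {p // p ∈ KT K l D} × {c : ClassGroup (𝓞 K) // c ^ l = 1} =>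
      ClassGroup.mk0 (P x.1) * x.2.1) ?_
  rintro ⟨p, c, hc⟩ ⟨q, c', hc'⟩ h
  simp only at h
  have hpq : p = q := by
    have h3 : ClassGroup.mk0 (P p) ^ l = ClassGroup.mk0 (P q) ^ l := by
      have := congrArg (fun x => x ^ l) h
      simpa only [mul_pow, hc, hc', mul_one] using this
    have h4 : ClassGroup.mk0 (P p ^ l * J q ^ l) = 1 := by
      rw [map_mul, map_pow, map_pow, h3, ← mul_pow, hPJ1, one_pow]
    rw [ClassGroup.mk0_eq_one_iff] at h4
    obtain ⟨α, hα⟩ := h4.principal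
    have hα' : (P p : Ideal (𝓞 K)) ^ l * (J q : Ideal (𝓞 K)) ^ l = Ideal.span {α} := hα
    have h5 : (Algebra.norm ℤ α).natAbs = (p.1 * q.1) ^ l := by
      rw [← Ideal.absNorm_span_singleton, ← hα', map_mul, map_pow, map_pow, hP, hJ, mul_pow]
    have h6 : 30 ^ l * (p.1 * q.1) ^ l < D :=
      pow_bound (hmem p.1 p.2).2.1 (hmem q.1 q.2).2.1
    have h7 : 4 * |Algebra.norm ℤ α| < |discr K| := by
      rw [Int.abs_eq_natAbs, Int.abs_eq_natAbs, h5, ← hD]
      have : 4 * (p.1 * q.1) ^ l < D := by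
        refine lt_of_le_of_lt (Nat.mul_le_mul_right _ ?_) h6
        calc 4 ≤ 30 := by norm_num
          _ ≤ 30 ^ l := Nat.le_self_pow (by omega) _
      exact_mod_cast this
    obtain ⟨m, hm⟩ := int_of_small h2 hd h7
    rw [hm, norm_int h2, Int.natAbs_pow] at h5
    exact Subtype.ext (eq_of_sq (hmem p.1 p.2).1 (hmem q.1 q.2).1 hl h5)
  subst hpq
  have h8 : c = c' := mul_left_cancel h
  subst h8
  rfl

theorem class_le (h2 : Module.finrank ℚ K = 2) :
    Nat.card (ClassGroup (𝓞 K)) ≤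
      (FI K (⌊√((discr K).natAbs : ℝ)⌋₊ + 1)).card := by
  choose I hI1 hI2 using (exists_ideal_in_class_of_norm_le (K := K))
  rw [← Fintype.card_coe, ← Nat.card_eq_fintype_card]
  have hmem : ∀ c, (I c : Ideal (𝓞 K)) ∈ FI K (⌊√((discr K).natAbs : ℝ)⌋₊ + 1) := by
    intro c
    rw [mem_FI]
    refine ⟨?_, nonZeroDivisors.coe_ne_zero _⟩
    have h3 := hI2 c
    rw [h2] at h3
    have h4 : InfinitePlace.nrComplexPlaces K ≤ 1 := by
      have := InfinitePlace.card_add_two_mul_card_eq_rank K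
      rw [h2] at this
      omega
    have hpi := Real.pi_gt_three
    have h5 : (4 / Real.pi) ^ InfinitePlace.nrComplexPlaces K ≤ 4 / 3 := by
      have e1 : (1 : ℝ) ≤ 4 / Real.pi := by
        rw [le_div_iff₀ Real.pi_pos]
        linarith [Real.pi_le_four]
      have e2 : 4 / Real.pi ≤ 4 / 3 := by gcongr
      calc (4 / Real.pi) ^ InfinitePlace.nrComplexPlaces K ≤ (4 / Real.pi) ^ 1 :=
            pow_le_pow_right₀ e1 h4
        _ ≤ 4 / 3 := by rw [pow_one]; exact e2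
    have h6 : |(discr K : ℝ)| = ((discr K).natAbs : ℝ) := by
      rw [Nat.cast_natAbs]
      push_cast
      rfl
    have h7 : (Ideal.absNorm (I c : Ideal (𝓞 K)) : ℝ) ≤ √((discr K).natAbs : ℝ) := by
      rw [h6] at h3
      have e3 : 0 ≤ √((discr K).natAbs : ℝ) := Real.sqrt_nonneg _
      have e4 : ((Nat.factorial 2 : ℕ) : ℝ) / ((2 : ℕ) : ℝ) ^ 2 * √((discr K).natAbs : ℝ) =
          1 / 2 * √((discr K).natAbs : ℝ) := by
        norm_num [Nat.factorial]
      rw [e4] at h3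
      refine h3.trans ?_
      calc (4 / Real.pi) ^ InfinitePlace.nrComplexPlaces K * (1 / 2 * √((discr K).natAbs : ℝ))
          ≤ 4 / 3 * (1 / 2 * √((discr K).natAbs : ℝ)) :=
            mul_le_mul_of_nonneg_right h5 (by positivity)
        _ ≤ _ := by linarith
    exact (Nat.le_floor h7).trans (Nat.le_succ _)
  refine Nat.card_le_card_of_injective (fun c => ⟨(I c : Ideal (𝓞 K)), hmem c⟩) ?_
  intro c c' h
  have h' : (I c : Ideal (𝓞 K)) = (I c' : Ideal (𝓞 K)) := by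
    simpa only [Subtype.mk.injEq] using h
  have h3 : I c = I c' := Subtype.ext h'
  rw [← hI1 c, ← hI1 c', h3]

theorem one_lt_discr (h2 : Module.finrank ℚ K = 2) : 2 < (discr K).natAbs := by
  have := abs_discr_gt_two (K := K) (by rw [h2]; norm_num)
  rw [Int.abs_eq_natAbs] at this
  exact_mod_cast this

/-- the class number of a quadratic field in terms of the small non-inert primes -/
theorem class_bound : ∃ C : ℝ, 0 < C ∧ ∀ (K : Type) [Field K] [NumberField K],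
    Module.finrank ℚ K = 2 → ∀ l : ℕ, 1 ≤ l →
    (Nat.card (ClassGroup (𝓞 K)) : ℝ) * Real.log ((discr K).natAbs : ℝ) ≤
      C * l ^ 2 * (Real.log ((KT K l (discr K).natAbs).card + 2)) ^ 2 *
        √((discr K).natAbs : ℝ) := by
  obtain ⟨C, hC0, hC⟩ := sum_TT
  refine ⟨2 * (12 * Real.exp 6 * 2) * C, by positivity, ?_⟩
  intro K _ _ h2 l hl
  set D := (discr K).natAbs with hD
  have hD2 : 2 < D := one_lt_discr h2
  have hDr : (2 : ℝ) < D := by exact_mod_cast hD2
  set N := ⌊√(D : ℝ)⌋₊ + 1 with hN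
  have hs1 : 1 ≤ √(D : ℝ) := by
    rw [Real.one_le_sqrt]; linarith
  have hN1 : √(D : ℝ) ≤ N := by
    rw [hN]; push_cast; exact (Nat.lt_floor_add_one _).le
  have hN2 : (N : ℝ) ≤ 2 * √(D : ℝ) := by
    rw [hN]; push_cast
    have := Nat.floor_le (Real.sqrt_nonneg (D : ℝ))
    linarith
  have hN3 : 1 < N := by
    have : 1 ≤ ⌊√(D : ℝ)⌋₊ := Nat.le_floor (by exact_mod_cast hs1)
    omega
  have hND : N ≤ D := by
    have h1 : √(D : ℝ) < D := by
      rw [Real.sqrt_lt' (by linarith)]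
      nlinarith
    have h3 : ⌊√(D : ℝ)⌋₊ < D := by
      rw [Nat.floor_lt (Real.sqrt_nonneg _)]
      exact h1
    omega
  have hlD : 0 < Real.log D := Real.log_pos (by linarith)
  have hlN : Real.log N ≤ 9 * Real.log D := by
    have h1 : Real.log N ≤ Real.log D := Real.log_le_log (by positivity) (by exact_mod_cast hND)
    linarith
  have hlN2 : Real.log D ≤ 2 * Real.log N := by
    have h1 : Real.log (√(D : ℝ)) ≤ Real.log N := Real.log_le_log (by positivity) hN1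
    rw [Real.log_sqrt (by linarith)] at h1
    linarith
  have h3 := hC K l D N hl (by omega) hN3 hlN
  have h4 := card_FI_le h2 N
  have h5 : (Nat.card (ClassGroup (𝓞 K)) : ℝ) ≤ (FI K N).card := by
    exact_mod_cast class_le h2
  calc (Nat.card (ClassGroup (𝓞 K)) : ℝ) * Real.log D
      ≤ ((FI K N).card : ℝ) * (2 * Real.log N) := by gcongr
    _ = 2 * (((FI K N).card : ℝ) * Real.log N) := by ring
    _ ≤ 2 * (12 * Real.exp 6 * N * Real.exp (2 * ∑ p ∈ TT K N, 1 / (p : ℝ))) := by gcongr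
    _ ≤ 2 * (12 * Real.exp 6 * (2 * √(D : ℝ)) *
          (C * l ^ 2 * (Real.log ((KT K l D).card + 2)) ^ 2)) := by gcongr
    _ = _ := by ring

end Pool.Agent.TH847.LS
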